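import Pool.Agent.Helper60_SEP.Bas

/-!
# MP_ff6f12_co, squad SEP: module EXT (helper81)
-/

set_option autoImplicit false

open SimpleGraph

namespace Pool.Agent.SEP60.H81

open Pool.Agent.RS80 Pool.Agent.RS81 Pool.Agent.SEP60

variable {V : Type} {B : SimpleGraph V} (D : Dat B)

/-- The extension of the colour class `C` of the core by the colour classes `P e`. -/
def ext (hb : Bas D) (C : SimpleGraph D.U) (P : D.E → SimpleGraph D.T) (_ : ∀ e, P e ≤ D.Q) :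
    SimpleGraph D.Vt where
  Adj a b := (∃ x y, C.Adj x y ∧ a = .inl x ∧ b = .inl y) ∨
    ∃ x y e, D.Γ.Adj x y ∧ ∃ z z', (P e).Adj z z' ∧ a = D.em x y e z ∧ b = D.em x y e z'
  symm := ⟨by
    rintro a b (⟨x, y, h1, h2, h3⟩ | ⟨x, y, e, h0, z, z', h1, h2, h3⟩)
    · exact Or.inl ⟨y, x, h1.symm, h3, h2⟩
    · exact Or.inr ⟨x, y, e, h0, z', z, h1.symm, h3, h2⟩⟩
  loopless := ⟨by
    rintro a (⟨x, y, h1, h2, h3⟩ | ⟨x, y, e, h0, z, z', h1, h2, h3⟩)
    · rw [h2] at h3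
      exact h1.ne (Sum.inl_injective h3)
    · rw [h2] at h3
      exact h1.ne (hb.emj x y e h0 h3)⟩

variable {D}

theorem ext_le (hb : Bas D) {C : SimpleGraph D.U} {P : D.E → SimpleGraph D.T}
    {hP : ∀ e, P e ≤ D.Q} (hC : C ≤ D.G) : ext D hb C P hP ≤ D.F := by
  rintro a b (⟨x, y, h1, h2, h3⟩ | ⟨x, y, e, h0, z, z', h1, h2, h3⟩)
  · exact (hb.adj a b).2 (Or.inl ⟨x, y, hC h1, h2, h3⟩)
  · exact (hb.adj a b).2 (Or.inr ⟨x, y, e, h0, z, z', hP e h1, h2, h3⟩)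

/-- A vertex of a copy of `Q` in the core is the root or the terminal. -/
theorem em_inl {x y : D.U} {e : D.E} {z : D.T} {u : D.U} (h : D.em x y e z = .inl u) :
    (z = D.r ∧ x = u) ∨ ∃ i, z = D.nb i ∧ D.inc e i = D.t (D.χ x y) ∧ y = u := by
  rcases H60.em_cases D x y e z with ⟨g1, g2⟩ | ⟨i, g1, g2⟩ | ⟨g1, g1', g2⟩ <;> rw [g2] at h
  · exact Or.inl ⟨g1, Sum.inl_injective h⟩
  · rcases H60.pt_cases D x y (D.inc e i) with ⟨k1, k⟩ | ⟨k1, k⟩ | ⟨_, _, k⟩ <;> rw [k] at h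
    · exact absurd h (by simp)
    · exact Or.inr ⟨i, g1, k1, Sum.inl_injective h⟩
    · exact absurd h (by simp)
  · exact absurd h (by simp)

/-- Adjacent vertices of `Q`, neither of them inner. -/
theorem q_cases {z z' : D.T} (h : D.Q.Adj z z') :
    (z ≠ D.r ∧ ∀ i, D.nb i ≠ z) ∨ (z' ≠ D.r ∧ ∀ i, D.nb i ≠ z') ∨
      (z = D.r ∧ ∃ i, z' = D.nb i) ∨ ∃ i, z = D.nb i ∧ z' = D.r := by
  by_cases h1 : z = D.r
  · obtain ⟨i, hi⟩ := (D.nbr z').1 (h1 ▸ h)
    exact Or.inr (Or.inr (Or.inl ⟨h1, i, hi.symm⟩))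
  · by_cases h2 : ∃ i, D.nb i = z
    · obtain ⟨i, hi⟩ := h2
      rcases H60.q_nb D i z' (hi ▸ h) with h3 | h3
      · exact Or.inr (Or.inr (Or.inr ⟨i, hi.symm, h3⟩))
      · exact Or.inr (Or.inl h3)
    · exact Or.inl ⟨h1, fun i hi => h2 ⟨i, hi⟩⟩

/-- The same point of two wires at `x`. -/
theorem pt_inj {x y y' : D.U} {a a' : D.Y} (h : D.pt x y a = D.pt x y' a') : a = a' := by
  rcases H60.pt_cases D x y a with ⟨h1, h2⟩ | ⟨h1, h2⟩ | ⟨h1, h1', h2⟩ <;>
    rcases H60.pt_cases D x y' a' with ⟨h3, h4⟩ | ⟨h3, h4⟩ | ⟨h3, h3', h4⟩ <;>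
    rw [h2, h4] at h
  · rw [h1, h3]
  · exact absurd h (by simp)
  · exact absurd h (by simp)
  · exact absurd h (by simp)
  · have := Sum.inl_injective h
    subst this
    rw [h1, h3]
  · exact absurd h (by simp)
  · exact absurd h (by simp)
  · exact absurd h (by simp)
  · have h5 : y = y' ∧ a = a' := by simpa using h
    exact h5.2

/-- The root edge of two copies. -/
theorem root_edge {x y x' y' : D.U} {e e' : D.E} {i : Fin D.n} {w w' : D.T}
    (h : D.Q.Adj w w') (h1 : (.inl x : D.Vt) = D.em x' y' e' w)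
    (h2 : D.em x y e (D.nb i) = D.em x' y' e' w') :
    ∃ j, D.inc e' j = D.inc e i ∧ ((w = D.r ∧ w' = D.nb j) ∨ (w = D.nb j ∧ w' = D.r)) := by
  rw [H60.emn] at h2
  rcases em_inl h1.symm with ⟨k1, k2⟩ | ⟨j, k1, k2, k3⟩
  · subst k2
    obtain ⟨j, hj⟩ := (D.nbr w').1 (k1 ▸ h)
    rw [← hj, H60.emn] at h2
    exact ⟨j, (pt_inj h2).symm, Or.inl ⟨k1, hj.symm⟩⟩
  · rcases H60.q_nb D j w' (k1 ▸ h) with h3 | ⟨h3, h4⟩
    · rw [h3, H60.emr] at h2
      subst k3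
      rcases H60.pt_cases D y' y (D.inc e i) with ⟨_, g⟩ | ⟨g1, g⟩ | ⟨_, _, g⟩ <;>
        rw [g] at h2
      · exact absurd h2 (by simp)
      · have := Sum.inl_injective h2
        subst this
        exact ⟨j, by rw [k2, g1, D.hχ], Or.inr ⟨k1, h3⟩⟩
      · exact absurd h2 (by simp)
    · rw [H60.emi D _ _ _ _ h3 h4] at h2
      exact absurd h2 (H60.pt_ne_inn D _ _ _ _ _ _ _)

section

variable {C : SimpleGraph D.U} {P : D.E → SimpleGraph D.T} {hP : ∀ e, P e ≤ D.Q}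
  {c : Bool} {τ : D.Y → Bool}

theorem ext_core (hb : Bas D) (hτ : ∀ β, τ (D.t β) = β)
    (hPr : ∀ e i, (P e).Adj D.r (D.nb i) ↔ τ (D.inc e i) = c)
    (hCr : ∀ x y, D.Γ.Adj x y → (C.Adj x y ↔ D.χ x y = c)) (x y : D.U) :
    (ext D hb C P hP).Adj (.inl x) (.inl y) ↔ C.Adj x y := by
  constructor
  · rintro (⟨x', y', h1, h2, h3⟩ | ⟨x', y', e, h0, z, z', h1, h2, h3⟩)
    · rw [Sum.inl_injective h2, Sum.inl_injective h3]
      exact h1
    · have hq := hP e h1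
      rcases em_inl h2.symm with ⟨k1, k2⟩ | ⟨i, k1, k2, k3⟩ <;>
        rcases em_inl h3.symm with ⟨l1, l2⟩ | ⟨j, l1, l2, l3⟩
      · rw [k1, l1] at hq
        exact absurd hq (D.Q.loopless.irrefl _)
      · subst k2 l3
        rw [k1, l1, hPr, l2, hτ] at h1
        exact (hCr _ _ h0).2 h1
      · subst k3 l2
        rw [k1, l1] at h1
        have h4 := (hPr e i).1 h1.symm
        rw [k2, hτ] at h4
        exact ((hCr _ _ h0).2 h4).symm
      · rw [k1, l1] at hq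
        rcases H60.q_nb D i _ hq with h | ⟨_, h⟩
        · exact absurd h (H60.r_not_nb D j)
        · exact absurd rfl (h j)
  · intro h
    exact Or.inl ⟨x, y, h, rfl, rfl⟩

/-- The edges inside one copy of `Q`. -/
theorem ext_em (hb : Bas D) (hC : C ≤ D.G) (hτ : ∀ β, τ (D.t β) = β)
    (hPr : ∀ e i, (P e).Adj D.r (D.nb i) ↔ τ (D.inc e i) = c)
    (hCr : ∀ x y, D.Γ.Adj x y → (C.Adj x y ↔ D.χ x y = c)) {x y : D.U} {e : D.E} {z z' : D.T}
    (h0 : D.Γ.Adj x y) (h : (ext D hb C P hP).Adj (D.em x y e z) (D.em x y e z')) :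
    (P e).Adj z z' := by
  have hq : D.Q.Adj z z' := (hb.ind x y e z z' h0).1 (ext_le hb hC h)
  -- inner vertices
  have inner : ∀ w w', w ≠ D.r → (∀ i, D.nb i ≠ w) →
      (ext D hb C P hP).Adj (D.em x y e w) (D.em x y e w') → (P e).Adj w w' := by
    intro w w' g1 g2 g3
    rcases g3 with ⟨x', y', h1, h2, h3⟩ | ⟨x', y', e', h0', v, v', h1, h2, h3⟩
    · rw [H60.emi D _ _ _ _ g1 g2] at h2
      exact absurd h2 (by simp)
    · rw [H60.emi D _ _ _ _ g1 g2] at h2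
      rcases H60.em_cases D x' y' e' v with ⟨k1, k2⟩ | ⟨i, k1, k2⟩ | ⟨k1, k1', k2⟩ <;>
        rw [k2] at h2
      · exact absurd h2 (by simp)
      · exact absurd h2.symm (H60.pt_ne_inn D _ _ _ _ _ _ _)
      · have hx : x = x' ∧ y = y' ∧ e = e' ∧ w = v := by simpa using h2
        obtain ⟨rfl, rfl, rfl, rfl⟩ := hx
        rw [hb.emj x y e h0 h3]
        exact h1
  -- root edges
  have root : ∀ i, (ext D hb C P hP).Adj (D.em x y e D.r) (D.em x y e (D.nb i)) →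
      (P e).Adj D.r (D.nb i) := by
    intro i g
    rw [H60.emr] at g
    rw [hPr]
    rcases g with ⟨x', y', h1, h2, h3⟩ | ⟨x', y', e', h0', v, v', h1, h2, h3⟩
    · rcases em_inl h3 with ⟨k1, _⟩ | ⟨j, k1, k2, k3⟩
      · exact absurd k1 (H60.r_not_nb D i)
      · have h4 := D.nbi k1
        have h5 := Sum.inl_injective h2
        subst h4 h5 k3
        rw [k2, hτ]
        exact (hCr _ _ h0).1 h1
    · obtain ⟨j, hj, h4⟩ := root_edge (hP e' h1) h2 h3
      rw [← hj, ← hPr]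
      rcases h4 with ⟨h4, h5⟩ | ⟨h4, h5⟩
      · rwa [h4, h5] at h1
      · rw [h4, h5] at h1
        exact h1.symm
  rcases q_cases hq with ⟨g1, g2⟩ | ⟨g1, g2⟩ | ⟨g1, i, g2⟩ | ⟨i, g1, g2⟩
  · exact inner z z' g1 g2 h
  · exact (inner z' z g1 g2 h.symm).symm
  · rw [g1, g2] at h ⊢
    exact root i h
  · rw [g1, g2] at h ⊢
    exact (root i h.symm).symm

end

/-- EXT. -/
theorem ext_thm (hloc : LocStmt) : ExtStmt := by
  intro V _ B hB hc ho D hb R₀ S₀ hRS hΓ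
  -- a solution with `τ s = true`
  obtain ⟨τ, hτ, hτs⟩ : ∃ τ, Sol (pat B D.Q D.r D.nb) D.inc τ ∧ τ D.s = true := by
    obtain ⟨τ, hτ⟩ := D.sol
    cases h : τ D.s with
    | true => exact ⟨τ, hτ, h⟩
    | false =>
      refine ⟨fun y => !τ y, fun e => ?_, by simp [h]⟩
      obtain ⟨R, S, ⟨g1, g2, g3⟩, g4⟩ := hτ e
      refine ⟨S \ R, R, ⟨?_, ?_, g2⟩, fun i => ?_⟩
      · rw [← g1, sdiff_sup_self, sup_comm]
      · intro hcon
        exact g3 (hcon.trans_le sdiff_le)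
      · have h1 : τ (D.inc e i) = true ↔ R.Adj D.r (D.nb i) := g4 i
        have h2 : D.Q.Adj D.r (D.nb i) := (D.nbr _).2 ⟨i, rfl⟩
        rw [← g1, sup_adj] at h2
        show (!τ (D.inc e i)) = true ↔ (S \ R).Adj D.r (D.nb i)
        rw [sdiff_adj, ← h1]
        cases h3 : τ (D.inc e i) with
        | true => simp
        | false =>
          have h4 : ¬ R.Adj D.r (D.nb i) := by rw [← h1, h3]; simp
          simp [h2.resolve_left h4]
  have hτt : ∀ β, τ (D.t β) = β := by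
    intro β
    have h1 := D.force τ hτ β
    rw [hτs] at h1
    cases β <;> cases h2 : τ (D.t _) <;> simp_all
  choose Rp Sp hG hp using hτ
  have hR : ∀ e, Rp e ≤ D.Q := fun e => by rw [← (hG e).1]; exact le_sup_left
  have hS : ∀ e, Sp e \ Rp e ≤ D.Q := fun e => by
    rw [← (hG e).1]; exact sdiff_le.trans le_sup_right
  have hRr : ∀ e i, (Rp e).Adj D.r (D.nb i) ↔ τ (D.inc e i) = true := fun e i => (hp e i).symm
  have hSr : ∀ e i, (Sp e \ Rp e).Adj D.r (D.nb i) ↔ τ (D.inc e i) = false := fun e i => by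
    have h2 : D.Q.Adj D.r (D.nb i) := (D.nbr _).2 ⟨i, rfl⟩
    rw [← (hG e).1, sup_adj] at h2
    rw [sdiff_adj, hRr]
    constructor
    · rintro ⟨_, h⟩
      simpa using h
    · intro h
      refine ⟨h2.resolve_left fun h3 => ?_, by simp [h]⟩
      rw [hRr, h] at h3
      exact absurd h3 (by simp)
  have hR0 : R₀ ≤ D.G := by rw [← hRS]; exact le_sup_left
  have hS0 : S₀ ≤ D.G := by rw [← hRS]; exact le_sup_right
  have hRc : ∀ x y, D.Γ.Adj x y → (R₀.Adj x y ↔ D.χ x y = true) := fun x y h => (hΓ x y h).1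
  have hSc : ∀ x y, D.Γ.Adj x y → (S₀.Adj x y ↔ D.χ x y = false) := fun x y h => (hΓ x y h).2
  -- copies of `B`
  have key : ∀ (c : Bool) (C : SimpleGraph D.U) (P : D.E → SimpleGraph D.T)
      (hP : ∀ e, P e ≤ D.Q), C ≤ D.G →
      (∀ e i, (P e).Adj D.r (D.nb i) ↔ τ (D.inc e i) = c) →
      (∀ x y, D.Γ.Adj x y → (C.Adj x y ↔ D.χ x y = c)) → (∀ e, B.Free (P e)) →
      ∀ (f : Copy B (ext D hb C P hP)) v, ∃ x, f v = .inl x := by
    intro c C P hP hC hPr hCr hfree f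
    have hle := ext_le (P := P) (hP := hP) hb hC
    rcases hloc V B hB hc ho D hb ((Copy.ofLE _ _ hle).comp f) with h | ⟨x, y, e, h0, h⟩
    · intro v
      obtain ⟨x, hx⟩ := h v
      exact ⟨x, hx⟩
    · exfalso
      choose g hg using h
      refine hfree e ⟨⟨⟨g, fun {a b} hab => ?_⟩, fun a b hab => ?_⟩⟩
      · have h1 : (ext D hb C P hP).Adj (f a) (f b) := f.toHom.map_adj hab
        have h2 : f a = D.em x y e (g a) := hg a
        have h3 : f b = D.em x y e (g b) := hg b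
        rw [h2, h3] at h1
        exact ext_em hb hC hτt hPr hCr h0 h1
      · have hab' : g a = g b := hab
        have h2 : f a = D.em x y e (g a) := hg a
        have h3 : f b = D.em x y e (g b) := hg b
        exact f.injective (show f a = f b from (h2.trans (by rw [hab'])).trans h3.symm)
  refine ⟨ext D hb R₀ Rp hR, ext D hb S₀ (fun e => Sp e \ Rp e) hS, ?_,
    ext_core hb hτt hRr hRc, ext_core hb hτt hSr hSc,
    key true R₀ Rp hR hR0 hRr hRc fun e => (hG e).2.1,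
    key false S₀ _ hS hS0 hSr hSc fun e h => (hG e).2.2 (h.trans_le sdiff_le)⟩
  refine le_antisymm (sup_le (ext_le hb hR0) (ext_le hb hS0)) ?_
  intro a b hab
  rw [hb.adj] at hab
  rw [sup_adj]
  rcases hab with ⟨x, y, h1, h2, h3⟩ | ⟨x, y, e, h0, z, z', h1, h2, h3⟩
  · rw [← hRS, sup_adj] at h1
    rcases h1 with h1 | h1
    · exact Or.inl (Or.inl ⟨x, y, h1, h2, h3⟩)
    · exact Or.inr (Or.inl ⟨x, y, h1, h2, h3⟩)
  · by_cases hR1 : (Rp e).Adj z z'
    · exact Or.inl (Or.inr ⟨x, y, e, h0, z, z', hR1, h2, h3⟩)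
    · rw [← (hG e).1, sup_adj] at h1
      exact Or.inr (Or.inr ⟨x, y, e, h0, z, z', by
        rw [sdiff_adj]; exact ⟨h1.resolve_left hR1, hR1⟩, h2, h3⟩)

end Pool.Agent.SEP60.H81
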