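import Pool.Agent.Helper60_SEP.Stmts

/-!
# MP_ff6f12_co, squad SEP: module KST (helper81)
-/

set_option autoImplicit false

open SimpleGraph

namespace Pool.Agent.SEP60.H81

open Pool.Agent.RS80 Pool.Agent.RS81 Pool.Agent.SEP60

theorem lr {s t : ℕ} (i : Fin s) (j : Fin t) :
    (completeBipartiteGraph (Fin s) (Fin t)).Adj (.inl i) (.inr j) := by
  simp [completeBipartiteGraph_adj]

/-- An induced subgraph which meets both sides is connected. -/
theorem ind_conn {s t : ℕ} {A : Set (Fin s ⊕ Fin t)} {l : Fin s} {r : Fin t}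
    (hl : Sum.inl l ∈ A) (hr : Sum.inr r ∈ A) :
    ((completeBipartiteGraph (Fin s) (Fin t)).induce A).Preconnected := by
  have key : ∀ u : A, ((completeBipartiteGraph (Fin s) (Fin t)).induce A).Reachable u
      ⟨Sum.inl l, hl⟩ := by
    rintro ⟨u | u, hu⟩
    · have h1 : ((completeBipartiteGraph (Fin s) (Fin t)).induce A).Adj ⟨Sum.inl u, hu⟩
          ⟨Sum.inr r, hr⟩ := lr u r
      have h2 : ((completeBipartiteGraph (Fin s) (Fin t)).induce A).Adj ⟨Sum.inr r, hr⟩
          ⟨Sum.inl l, hl⟩ := (lr l r).symm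
      exact h1.reachable.trans h2.reachable
    · have h2 : ((completeBipartiteGraph (Fin s) (Fin t)).induce A).Adj ⟨Sum.inr u, hu⟩
          ⟨Sum.inl l, hl⟩ := (lr l u).symm
      exact h2.reachable
  intro u v
  exact (key u).trans (key v).symm

theorem full_conn {s t : ℕ} (l : Fin s) (r : Fin t) :
    (completeBipartiteGraph (Fin s) (Fin t)).Preconnected := by
  have key : ∀ u, (completeBipartiteGraph (Fin s) (Fin t)).Reachable u (Sum.inl l) := by
    rintro (u | u)
    · exact (lr u r).reachable.trans (lr l r).symm.reachable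
    · exact (lr l u).symm.reachable
  intro u v
  exact (key u).trans (key v).symm

theorem exists_ne {s : ℕ} (hs : 2 ≤ s) (i : Fin s) : ∃ j : Fin s, j ≠ i := by
  by_cases h : i.1 = 0
  · refine ⟨⟨1, by omega⟩, fun h' => ?_⟩
    have := congrArg Fin.val h'
    simp at this
    omega
  · refine ⟨⟨0, by omega⟩, fun h' => h ?_⟩
    have := congrArg Fin.val h'
    simp at this
    omega

/-- KST. -/
theorem kst : KstStmt := by
  intro s t hs ht
  have l0 : Fin s := ⟨0, by omega⟩
  have r0 : Fin t := ⟨0, by omega⟩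
  refine ⟨⟨?_, ?_, ?_⟩, ?_, ?_⟩
  · rw [Nat.card_eq_fintype_card, Fintype.card_sum, Fintype.card_fin, Fintype.card_fin]
    omega
  · have : Nonempty (Fin s ⊕ Fin t) := ⟨Sum.inl l0⟩
    exact ⟨full_conn l0 r0⟩
  · rintro (v | v)
    · obtain ⟨j, hj⟩ := exists_ne hs v
      have h1 : Sum.inl j ∈ ({Sum.inl v}ᶜ : Set (Fin s ⊕ Fin t)) := by simpa using hj
      have h2 : Sum.inr r0 ∈ ({Sum.inl v}ᶜ : Set (Fin s ⊕ Fin t)) := by simp
      have : Nonempty ({Sum.inl v}ᶜ : Set (Fin s ⊕ Fin t)) := ⟨⟨_, h1⟩⟩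
      exact ⟨ind_conn h1 h2⟩
    · obtain ⟨j, hj⟩ := exists_ne ht v
      have h1 : Sum.inl l0 ∈ ({Sum.inr v}ᶜ : Set (Fin s ⊕ Fin t)) := by simp
      have h2 : Sum.inr j ∈ ({Sum.inr v}ᶜ : Set (Fin s ⊕ Fin t)) := by simpa using hj
      have : Nonempty ({Sum.inr v}ᶜ : Set (Fin s ⊕ Fin t)) := ⟨⟨_, h1⟩⟩
      exact ⟨ind_conn h1 h2⟩
  · exact ⟨Coloring.mk (fun v => match v with
      | .inl _ => (0 : Fin 2)
      | .inr _ => 1) (by
      rintro (u | u) (v | v) h
      · simp [completeBipartiteGraph_adj] at h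
      · simp
      · simp
      · simp [completeBipartiteGraph_adj] at h)⟩
  · intro κ hκ x y hxy
    have same_l : ∀ i i' : Fin s, κ (.inl i) = κ (.inl i') := by
      intro i i'
      have h1 := hκ _ _ (lr i r0)
      have h2 := hκ _ _ (lr i' r0)
      cases h3 : κ (.inl i) <;> cases h4 : κ (.inl i') <;> cases h5 : κ (.inr r0) <;> simp_all
    have same_r : ∀ i i' : Fin t, κ (.inr i) = κ (.inr i') := by
      intro i i'
      have h1 := hκ _ _ (lr l0 i)
      have h2 := hκ _ _ (lr l0 i')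
      cases h3 : κ (.inr i) <;> cases h4 : κ (.inr i') <;> cases h5 : κ (.inl l0) <;> simp_all
    rcases x with i | i <;> rcases y with j | j
    · exact absurd (same_l i j) hxy
    · obtain ⟨i', hi'⟩ := exists_ne hs i
      obtain ⟨j', hj'⟩ := exists_ne ht j
      exact ind_conn (l := i') (r := j') (by simpa using hi') (by simpa using hj')
    · obtain ⟨i', hi'⟩ := exists_ne ht i
      obtain ⟨j', hj'⟩ := exists_ne hs j
      exact ind_conn (l := j') (r := i') (by simpa using hj') (by simpa using hi')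
    · exact absurd (same_r i j) hxy

end Pool.Agent.SEP60.H81
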